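import Pool.Agent.LinU.PD
import Pool.Agent.PTr.Chain

/-!
# Paths, `D` levels

The existence of a path of length `L ≤ K ^ D` with states in `[0, S)` is defined by a bounded formula if
`S ^ (K + 1) ≤ B`.

*Proof.* Induction on `D` for the predicate `P_D (i₀, a, b)`: there is `s` with values `< S`, `s 0 = a`,
`s (K ^ D) = b` and `E (i₀ + i) (s i) (s (i + 1)) v` for all `i < K ^ D` with `i₀ + i < L`, in the
form closed under substitution. `P_(D+1) (i₀, a, b)`: there is `c < S ^ (K + 1)` with `dg S c 0 = a`,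
`dg S c K = b` and `P_D (i₀ + k K ^ D, dg S c k, dg S c (k + 1))` for all `k < K`.
-/

set_option autoImplicit false

namespace Pool.Agent.H63WB

open Finset Pool.Agent.Grz Pool.Agent.GAvg Pool.Agent.PTr Pool.Agent.MTr Pool.Agent.LPC
open Pool.Agent.ECD Pool.Agent.LinU

/-- `E` is definable after every substitution of functions in `DFun` -/
def PDelta {n : ℕ} (E : ℕ → ℕ → ℕ → (Fin n → ℕ) → Prop) : Prop :=
  ∀ (m : ℕ) (i a b : (Fin m → ℕ) → ℕ) (v : Fin n → (Fin m → ℕ) → ℕ),
    DFun m i → DFun m a → DFun m b → (∀ j, DFun m (v j)) →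
      Delta0 m (fun w => E (i w) (a w) (b w) (fun j => v j w))

section

variable {n : ℕ}

/-- the block number `k` of a path with the intermediate states coded by `c` -/
private def Blk (S K : (Fin n → ℕ) → ℕ) (D : ℕ) (R : ℕ → ℕ → ℕ → (Fin n → ℕ) → Prop)
    (k i c : ℕ) (v : Fin n → ℕ) : Prop :=
  ¬ (k < K v ∧ ¬ R (i + k * K v ^ D) (dg (S v) c k) (dg (S v) c (k + 1)) v)

/-- all blocks, and the ends -/
private def Cod (S K : (Fin n → ℕ) → ℕ) (D : ℕ) (R : ℕ → ℕ → ℕ → (Fin n → ℕ) → Prop)
    (i a b c : ℕ) (v : Fin n → ℕ) : Prop :=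
  dg (S v) c 0 = a ∧ dg (S v) c (K v) = b ∧ ∀ k, k ≤ K v → Blk S K D R k i c v

/-- paths of length `K ^ D` from `a` to `b`, which start at the time `i` -/
private def Lev (S K L B : (Fin n → ℕ) → ℕ) (E : ℕ → ℕ → ℕ → (Fin n → ℕ) → Prop) :
    ℕ → ℕ → ℕ → ℕ → (Fin n → ℕ) → Prop
  | 0 => fun i a b v => a < S v ∧ b < S v ∧ ¬ (i < L v ∧ ¬ E i a b v)
  | D + 1 => fun i a b v => ∃ c, c ≤ B v ∧ Cod S K D (Lev S K L B E D) i a b c v

variable {S K L B : (Fin n → ℕ) → ℕ} {E : ℕ → ℕ → ℕ → (Fin n → ℕ) → Prop}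

private theorem blk_delta (hS : DFun n S) (hK : DFun n K) (h2 : ∀ v, 2 ≤ S v) (D : ℕ)
    {R : ℕ → ℕ → ℕ → (Fin n → ℕ) → Prop} (hR : PDelta R) {m : ℕ} {k i c : (Fin m → ℕ) → ℕ}
    {v : Fin n → (Fin m → ℕ) → ℕ} (hk : DFun m k) (hi : DFun m i) (hc : DFun m c)
    (hv : ∀ j, DFun m (v j)) :
    Delta0 m (fun w => Blk S K D R (k w) (i w) (c w) (fun j => v j w)) := by
  have hS' : DFun m (fun w => S (fun j => v j w)) := hS.comp hv
  have hK' : DFun m (fun w => K (fun j => v j w)) := hK.comp hv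
  refine ((Delta0.ltFun hk hK').and (Delta0.not ?_)).not
  exact hR m _ _ _ v (hi.add (hk.mul (DFun.powConst hK' D))) (dfun_dg hS' hc hk fun w => h2 _)
    (dfun_dg hS' hc (hk.add (DFun.const 1)) fun w => h2 _) hv

private theorem cod_delta (hS : DFun n S) (hK : DFun n K) (h2 : ∀ v, 2 ≤ S v) (D : ℕ)
    {R : ℕ → ℕ → ℕ → (Fin n → ℕ) → Prop} (hR : PDelta R) {m : ℕ} {i a b c : (Fin m → ℕ) → ℕ}
    {v : Fin n → (Fin m → ℕ) → ℕ} (hi : DFun m i) (ha : DFun m a) (hb : DFun m b)
    (hc : DFun m c) (hv : ∀ j, DFun m (v j)) :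
    Delta0 m (fun w => Cod S K D R (i w) (a w) (b w) (c w) (fun j => v j w)) := by
  have hS' : DFun m (fun w => S (fun j => v j w)) := hS.comp hv
  have hK' : DFun m (fun w => K (fun j => v j w)) := hK.comp hv
  refine (Delta0.eqFun (dfun_dg hS' hc (DFun.const 0) fun w => h2 _) ha).and
    ((Delta0.eqFun (dfun_dg hS' hc hK' fun w => h2 _) hb).and ?_)
  exact Delta0.ballFun hK' (P := fun k w => Blk S K D R k (i w) (c w) (fun j => v j w))
    (blk_delta hS hK h2 D hR (DFun.proj 0) hi.weak hc.weak (fun j => (hv j).weak))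

private theorem lev_delta (hS : DFun n S) (hK : DFun n K) (hL : DFun n L) (hB : DFun n B)
    (h2 : ∀ v, 2 ≤ S v) (hE : PDelta E) (D : ℕ) : PDelta (Lev S K L B E D) := by
  induction D with
  | zero =>
    intro m i a b v hi ha hb hv
    have hS' : DFun m (fun w => S (fun j => v j w)) := hS.comp hv
    have hL' : DFun m (fun w => L (fun j => v j w)) := hL.comp hv
    exact (Delta0.ltFun ha hS').and ((Delta0.ltFun hb hS').and
      ((Delta0.ltFun hi hL').and (hE m i a b v hi ha hb hv).not).not)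
  | succ D ih =>
    intro m i a b v hi ha hb hv
    have hB' : DFun m (fun w => B (fun j => v j w)) := hB.comp hv
    exact Delta0.bexFun hB' (P := fun c w => Cod S K D (Lev S K L B E D) (i w) (a w) (b w) c
      (fun j => v j w)) (cod_delta hS hK h2 D ih hi.weak ha.weak hb.weak (DFun.proj 0)
        (fun j => (hv j).weak))

private theorem lev_iff {v : Fin n → ℕ} (h2 : 2 ≤ S v) (hK1 : 1 ≤ K v)
    (hSK : S v ^ (K v + 1) ≤ B v) (D : ℕ) : ∀ i a b : ℕ, Lev S K L B E D i a b v ↔
      ∃ s : ℕ → ℕ, (∀ j, s j < S v) ∧ s 0 = a ∧ s (K v ^ D) = b ∧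
        ∀ j, j < K v ^ D → i + j < L v → E (i + j) (s j) (s (j + 1)) v := by
  have hS0 : 0 < S v := by omega
  induction D with
  | zero =>
    intro i a b
    constructor
    · rintro ⟨ha, hb, hE⟩
      refine ⟨fun j => if j = 0 then a else b, fun j => ?_, rfl, ?_, fun j hj hL => ?_⟩
      · dsimp only
        split_ifs
        · exact ha
        · exact hb
      · rw [pow_zero]
        rfl
      · obtain rfl : j = 0 := by
          rw [pow_zero] at hj
          omega
        by_contra hcon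
        exact hE ⟨hL, hcon⟩
    · rintro ⟨s, hs, rfl, rfl, hE⟩
      refine ⟨hs _, hs _, ?_⟩
      rintro ⟨hL, hcon⟩
      refine hcon ?_
      have h := hE 0 (by rw [pow_zero]; omega) hL
      rw [pow_zero]
      exact h
  | succ D ih =>
    intro i a b
    have hq0 : 0 < K v ^ D := pow_pos hK1 D
    have hKq : K v ^ (D + 1) = K v * K v ^ D := by rw [pow_succ, mul_comm]
    rw [hKq]
    generalize hq : K v ^ D = q at ih hq0
    constructor
    · rintro ⟨c, -, hc0, hcK, hc⟩
      have h5 : ∀ k, k < K v → ∃ s : ℕ → ℕ, (∀ j, s j < S v) ∧ s 0 = dg (S v) c k ∧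
          s q = dg (S v) c (k + 1) ∧
            ∀ j, j < q → i + k * q + j < L v → E (i + k * q + j) (s j) (s (j + 1)) v := by
        intro k hk
        have h6 := hc k hk.le
        unfold Blk at h6
        rw [hq] at h6
        refine (ih _ _ _).1 ?_
        by_contra h7
        exact h6 ⟨hk, h7⟩
      choose! s hs using h5
      refine ⟨fun j => if j < K v * q then s (j / q) (j % q) else dg (S v) c (K v),
        fun j => ?_, ?_, ?_, fun j hj hL => ?_⟩
      · dsimp only
        split_ifs with h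
        · exact (hs _ ((Nat.div_lt_iff_lt_mul hq0).2 h)).1 _
        · exact dg_lt hS0 _ _
      · have h : 0 < K v * q := Nat.mul_pos hK1 hq0
        dsimp only
        rw [if_pos h, Nat.zero_div, Nat.zero_mod, (hs 0 hK1).2.1, hc0]
      · dsimp only
        rw [if_neg (lt_irrefl _), hcK]
      · have hk : j / q < K v := (Nat.div_lt_iff_lt_mul hq0).2 hj
        have hr : j % q < q := Nat.mod_lt _ hq0
        have hji : j / q * q + j % q = j := Nat.div_add_mod' j q
        obtain ⟨-, -, hs2, hs3⟩ := hs _ hk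
        have h7 := hs3 _ hr
        rw [Nat.add_assoc, hji] at h7
        have h8 := h7 hL
        dsimp only
        rw [if_pos hj]
        by_cases h10 : j % q + 1 < q
        · have h11 : (j + 1) / q = j / q := by
            conv_lhs => rw [← hji, Nat.add_assoc, Nat.mul_comm, Nat.mul_add_div hq0,
              Nat.div_eq_of_lt h10, Nat.add_zero]
          have h12 : (j + 1) % q = j % q + 1 := by
            have h13 := Nat.div_add_mod' (j + 1) q
            rw [h11] at h13
            omega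
          have h14 : j + 1 < K v * q := by
            have h15 : (j / q + 1) * q ≤ K v * q := Nat.mul_le_mul_right _ hk
            rw [Nat.succ_mul] at h15
            omega
          rw [if_pos h14, h11, h12]
          exact h8
        · have h11 : j % q + 1 = q := by omega
          have h12 : j + 1 = (j / q + 1) * q := by
            rw [Nat.succ_mul]
            omega
          rw [h11, hs2] at h8
          by_cases h13 : j / q + 1 < K v
          · have h14 : j + 1 < K v * q := by
              rw [h12]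
              exact Nat.mul_lt_mul_of_pos_right h13 hq0
            rw [if_pos h14, h12, Nat.mul_div_cancel _ hq0, Nat.mul_mod_left, (hs _ h13).2.1]
            exact h8
          · have h14 : j / q + 1 = K v := by omega
            have h15 : ¬ j + 1 < K v * q := by
              rw [h12, h14]
              exact lt_irrefl _
            rw [if_neg h15, ← h14]
            exact h8
    · rintro ⟨s, hs, rfl, rfl, hE⟩
      refine ⟨∑ k ∈ range (K v + 1), s (k * q) * S v ^ k,
        ((lt_code hS0 _ fun k _ => hs _).le).trans hSK, ?_, ?_, fun k _ => ?_⟩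
      · rw [dg_code hS0 (fun k => s (k * q)) (fun k _ => hs _) (by omega), Nat.zero_mul]
      · rw [dg_code hS0 (fun k => s (k * q)) (fun k _ => hs _) (by omega)]
      · unfold Blk
        rw [hq]
        rintro ⟨hk, hcon⟩
        refine hcon ((ih _ _ _).2 ⟨fun j => s (k * q + j), fun j => hs _, ?_, ?_,
          fun j hj hL => ?_⟩)
        · rw [dg_code hS0 (fun k => s (k * q)) (fun k _ => hs _) (by omega)]
          rfl
        · rw [dg_code hS0 (fun k => s (k * q)) (fun k _ => hs _) (by omega), Nat.succ_mul]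
        · have h15 : (k + 1) * q ≤ K v * q := Nat.mul_le_mul_right _ hk
          rw [Nat.succ_mul] at h15
          rw [Nat.add_assoc] at hL ⊢
          exact hE _ (by omega) hL

end

theorem path_delta {n : ℕ} (D : ℕ) {S K L B : (Fin n → ℕ) → ℕ} (hS : DFun n S) (hK : DFun n K)
    (hL : DFun n L) (hB : DFun n B) (h2 : ∀ v, 2 ≤ S v) (hK1 : ∀ v, 1 ≤ K v)
    (hSK : ∀ v, S v ^ (K v + 1) ≤ B v) (hLK : ∀ v, L v ≤ K v ^ D)
    {E : ℕ → ℕ → ℕ → (Fin n → ℕ) → Prop} (hE : PDelta E) :
    Delta0 n (fun v => ∃ s : ℕ → ℕ, (∀ i, s i < S v) ∧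
      ∀ i, i < L v → E i (s i) (s (i + 1)) v) := by
  have h := lev_delta hS hK hL hB h2 hE D
  have h1 : Delta0 (n + 1) (fun w => ∃ b, b ≤ S (fun j => w j.succ) ∧
      Lev S K L B E D 0 (w 0) b (fun j => w j.succ)) :=
    Delta0.bexFun hS.weak (P := fun b w => Lev S K L B E D 0 (w 0) b (fun j => w j.succ))
      (h _ _ _ _ _ (DFun.const 0) (DFun.proj 1) (DFun.proj 0) (fun j => DFun.proj _))
  have h3 := Delta0.bexFun hS (P := fun a v => ∃ b, b ≤ S v ∧ Lev S K L B E D 0 a b v) h1
  refine h3.of_iff fun v => ?_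
  constructor
  · rintro ⟨s, hs, hE⟩
    refine ⟨s 0, (hs 0).le, s (K v ^ D), (hs _).le, ?_⟩
    refine (lev_iff (h2 v) (hK1 v) (hSK v) D 0 _ _).2 ⟨s, hs, rfl, rfl, fun j _ hL => ?_⟩
    rw [Nat.zero_add] at hL ⊢
    exact hE j hL
  · rintro ⟨a, -, b, -, hl⟩
    obtain ⟨s, hs, -, -, hs3⟩ := (lev_iff (h2 v) (hK1 v) (hSK v) D 0 _ _).1 hl
    refine ⟨s, hs, fun i hi => ?_⟩
    have h4 := hs3 i (lt_of_lt_of_le hi (hLK v)) (by rw [Nat.zero_add]; exact hi)
    rwa [Nat.zero_add] at h4

end Pool.Agent.H63WB
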