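import Mathlib

set_option autoImplicit false

namespace Pool.Agent.H63WB

/-- the bandwidth -/
def wd (d r N : ℕ) : ℕ := Nat.findGreatest (fun w => w ^ d ≤ r * N ^ (d - 1)) N

/-- the length of the blocks -/
def kd (d N : ℕ) : ℕ := Nat.findGreatest (fun k => k ^ (d + 1) ≤ N) N + 1

theorem wd_pow {d r N : ℕ} (hd : 1 ≤ d) : wd d r N ^ d ≤ r * N ^ (d - 1) := by
  have h := Nat.findGreatest_spec (P := fun w => w ^ d ≤ r * N ^ (d - 1)) (m := 0) (n := N)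
    (Nat.zero_le _) (by simp [zero_pow (show d ≠ 0 by omega)])
  exact h

theorem kd_pow {d N : ℕ} : (kd d N - 1) ^ (d + 1) ≤ N := by
  have h := Nat.findGreatest_spec (P := fun k => k ^ (d + 1) ≤ N) (m := 0) (n := N)
    (Nat.zero_le _) (by simp)
  exact h

theorem kd_spec {d N : ℕ} (hN : 1 ≤ N) : N ≤ kd d N ^ (d + 1) := by
  by_contra hlt
  rw [not_le] at hlt
  have hle : kd d N ≤ N := by
    calc kd d N ≤ kd d N ^ (d + 1) := Nat.le_self_pow (by omega) _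
      _ ≤ N := hlt.le
  have h := Nat.le_findGreatest (P := fun k => k ^ (d + 1) ≤ N) hle hlt.le
  unfold kd at h
  omega

theorem key (d r : ℕ) (hd : 1 ≤ d) (N : ℕ) (hN : 1 ≤ N) :
    (2 * wd d r N + 1 + r) * (kd d N + 1) * (Nat.log 2 (3 * N) + 2) ≤
      ((3 * r + 1) * 3 * (2 + 6 * (d * (d + 1)))) * N := by
  have hdR : (1 : ℝ) ≤ (d : ℝ) := by exact_mod_cast hd
  have hd0 : (0 : ℝ) < (d : ℝ) := by linarith
  have hNR : (1 : ℝ) ≤ (N : ℝ) := by exact_mod_cast hN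
  have hN0 : (0 : ℝ) < (N : ℝ) := by linarith
  -- the three factors
  have hw : (wd d r N : ℝ) ≤ (r : ℝ) * (N : ℝ) ^ (1 - 1 / (d : ℝ)) := by
    have h1 : ((wd d r N : ℝ)) ^ d ≤ (r : ℝ) * (N : ℝ) ^ (d - 1) := by
      exact_mod_cast wd_pow (r := r) (N := N) hd
    have h2 : ((r : ℝ) * (N : ℝ) ^ (1 - 1 / (d : ℝ))) ^ d = (r : ℝ) ^ d * (N : ℝ) ^ (d - 1) := by
      rw [mul_pow, ← Real.rpow_natCast ((N : ℝ) ^ (1 - 1 / (d : ℝ))) d, ← Real.rpow_mul hN0.le,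
        ← Real.rpow_natCast (N : ℝ) (d - 1)]
      congr 2
      rw [Nat.cast_sub hd]
      field_simp
      simp
    have h3 : (r : ℝ) ≤ (r : ℝ) ^ d := by
      have : r ≤ r ^ d := Nat.le_self_pow (by omega) _
      exact_mod_cast this
    have h4 : ((wd d r N : ℝ)) ^ d ≤ ((r : ℝ) * (N : ℝ) ^ (1 - 1 / (d : ℝ))) ^ d := by
      rw [h2]
      exact h1.trans (mul_le_mul_of_nonneg_right h3 (by positivity))
    exact le_of_pow_le_pow_left₀ (by omega) (by positivity) h4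
  have hk : ((kd d N : ℝ)) - 1 ≤ (N : ℝ) ^ (1 / ((d : ℝ) + 1)) := by
    have h1 : (((kd d N - 1 : ℕ) : ℝ)) ^ (d + 1) ≤ (N : ℝ) := by
      exact_mod_cast kd_pow (d := d) (N := N)
    have hk1 : 1 ≤ kd d N := by unfold kd; omega
    have h2 : ((N : ℝ) ^ (1 / ((d : ℝ) + 1))) ^ (d + 1) = (N : ℝ) := by
      rw [← Real.rpow_natCast ((N : ℝ) ^ (1 / ((d : ℝ) + 1))) (d + 1), ← Real.rpow_mul hN0.le]
      have : 1 / ((d : ℝ) + 1) * ((d + 1 : ℕ) : ℝ) = 1 := by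
        push_cast
        field_simp
      rw [this, Real.rpow_one]
    have h3 : (((kd d N - 1 : ℕ) : ℝ)) ^ (d + 1) ≤ ((N : ℝ) ^ (1 / ((d : ℝ) + 1))) ^ (d + 1) := by
      rw [h2]; exact h1
    have h4 := le_of_pow_le_pow_left₀ (by omega) (by positivity) h3
    rw [Nat.cast_sub hk1] at h4
    simpa using h4
  have hD0 : (0 : ℝ) < (d : ℝ) * ((d : ℝ) + 1) := by positivity
  have hL : (Nat.log 2 (3 * N) : ℝ) ≤
      6 * ((d : ℝ) * ((d : ℝ) + 1)) * (N : ℝ) ^ (1 / ((d : ℝ) * ((d : ℝ) + 1))) := by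
    have h1 : (2 : ℝ) ^ (Nat.log 2 (3 * N)) ≤ 3 * (N : ℝ) := by
      exact_mod_cast Nat.pow_log_le_self 2 (x := 3 * N) (by omega)
    have h2 : (Nat.log 2 (3 * N) : ℝ) * Real.log 2 ≤ Real.log (3 * (N : ℝ)) := by
      rw [← Real.log_pow]
      exact Real.log_le_log (by positivity) h1
    have h3 : Real.log (3 * (N : ℝ)) ≤ (3 * (N : ℝ)) ^ (1 / ((d : ℝ) * ((d : ℝ) + 1))) /
        (1 / ((d : ℝ) * ((d : ℝ) + 1))) :=
      Real.log_le_rpow_div (by positivity) (by positivity)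
    have h4 : (3 * (N : ℝ)) ^ (1 / ((d : ℝ) * ((d : ℝ) + 1))) ≤
        3 * (N : ℝ) ^ (1 / ((d : ℝ) * ((d : ℝ) + 1))) := by
      rw [Real.mul_rpow (by norm_num) hN0.le]
      refine mul_le_mul_of_nonneg_right ?_ (by positivity)
      calc (3 : ℝ) ^ (1 / ((d : ℝ) * ((d : ℝ) + 1))) ≤ (3 : ℝ) ^ (1 : ℝ) := by
            apply Real.rpow_le_rpow_of_exponent_le (by norm_num)
            rw [div_le_one hD0]
            nlinarith
        _ = 3 := by norm_num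
    have h5 : (1 : ℝ) / 2 ≤ Real.log 2 := by
      have := Real.log_two_gt_d9
      linarith
    have h6 : (Nat.log 2 (3 * N) : ℝ) * (1 / 2) ≤ (Nat.log 2 (3 * N) : ℝ) * Real.log 2 :=
      mul_le_mul_of_nonneg_left h5 (by positivity)
    have h7 : Real.log (3 * (N : ℝ)) ≤
        (3 * (N : ℝ) ^ (1 / ((d : ℝ) * ((d : ℝ) + 1)))) * ((d : ℝ) * ((d : ℝ) + 1)) := by
      rw [div_div_eq_mul_div, div_one] at h3
      exact h3.trans (mul_le_mul_of_nonneg_right h4 hD0.le)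
    nlinarith [h2, h6, h7]
  -- exponents are nonnegative, so the powers are ≥ 1
  have e1 : (1 : ℝ) ≤ (N : ℝ) ^ (1 - 1 / (d : ℝ)) := by
    apply Real.one_le_rpow hNR
    rw [sub_nonneg, div_le_one hd0]
    exact hdR
  have e2 : (1 : ℝ) ≤ (N : ℝ) ^ (1 / ((d : ℝ) + 1)) := Real.one_le_rpow hNR (by positivity)
  have e3 : (1 : ℝ) ≤ (N : ℝ) ^ (1 / ((d : ℝ) * ((d : ℝ) + 1))) :=
    Real.one_le_rpow hNR (by positivity)
  have f1 : (2 * (wd d r N : ℝ) + 1 + r) ≤ (3 * (r : ℝ) + 1) * (N : ℝ) ^ (1 - 1 / (d : ℝ)) := by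
    have hr0 : (0 : ℝ) ≤ (r : ℝ) := by positivity
    nlinarith [mul_le_mul_of_nonneg_left e1 hr0]
  have f2 : ((kd d N : ℝ) + 1) ≤ 3 * (N : ℝ) ^ (1 / ((d : ℝ) + 1)) := by linarith
  have f3 : ((Nat.log 2 (3 * N) : ℝ) + 2) ≤
      (2 + 6 * ((d : ℝ) * ((d : ℝ) + 1))) * (N : ℝ) ^ (1 / ((d : ℝ) * ((d : ℝ) + 1))) := by
    linarith
  have hprod : (N : ℝ) ^ (1 - 1 / (d : ℝ)) * (N : ℝ) ^ (1 / ((d : ℝ) + 1)) *
      (N : ℝ) ^ (1 / ((d : ℝ) * ((d : ℝ) + 1))) = N := by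
    rw [← Real.rpow_add hN0, ← Real.rpow_add hN0]
    have : 1 - 1 / (d : ℝ) + 1 / ((d : ℝ) + 1) + 1 / ((d : ℝ) * ((d : ℝ) + 1)) = 1 := by
      field_simp
      ring
    rw [this, Real.rpow_one]
  have hfin : ((2 * (wd d r N : ℝ) + 1 + r) * ((kd d N : ℝ) + 1) *
      ((Nat.log 2 (3 * N) : ℝ) + 2)) ≤
      ((3 * (r : ℝ) + 1) * 3 * (2 + 6 * ((d : ℝ) * ((d : ℝ) + 1)))) * N := by
    calc _ ≤ ((3 * (r : ℝ) + 1) * (N : ℝ) ^ (1 - 1 / (d : ℝ))) *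
          (3 * (N : ℝ) ^ (1 / ((d : ℝ) + 1))) *
          ((2 + 6 * ((d : ℝ) * ((d : ℝ) + 1))) * (N : ℝ) ^ (1 / ((d : ℝ) * ((d : ℝ) + 1)))) := by
            gcongr
      _ = ((3 * (r : ℝ) + 1) * 3 * (2 + 6 * ((d : ℝ) * ((d : ℝ) + 1)))) *
          ((N : ℝ) ^ (1 - 1 / (d : ℝ)) * (N : ℝ) ^ (1 / ((d : ℝ) + 1)) *
          (N : ℝ) ^ (1 / ((d : ℝ) * ((d : ℝ) + 1)))) := by ring
      _ = _ := by rw [hprod]
  exact_mod_cast hfin

theorem wide_bound (d r : ℕ) (hd : 1 ≤ d) : ∃ c : ℕ, ∀ p k q N e B : ℕ, p.Prime → 0 < k →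
    q = p ^ k → 1 ≤ N → q ^ N ≤ B → (e = 1 ∨ p ^ (e - 1) < 3 * N) → 1 ≤ e →
    ((q ^ e) ^ (2 * wd d r N + 1 + r)) ^ (kd d N + 1) ≤ B ^ c := by
  refine ⟨(3 * r + 1) * 3 * (2 + 6 * (d * (d + 1))), ?_⟩
  intro p k q N e B hp hk hq hN hB he he1
  have hkey := key d r hd N hN
  have hp2 : 2 ≤ p := hp.two_le
  have hq1 : 1 ≤ q := by
    rw [hq]
    exact Nat.one_le_pow _ _ (by omega)
  set L := Nat.log 2 (3 * N) with hL
  have hlog : 3 * N < 2 ^ (L + 1) := Nat.lt_pow_succ_log_self (by norm_num) _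
  -- `q ^ e ≤ q ^ (L + 2)`
  have hqe : q ^ e ≤ q ^ (L + 2) := by
    have h1 : q ^ (e - 1) ≤ q ^ (L + 1) := by
      rcases he with he | he
      · subst he
        simpa using Nat.one_le_pow _ _ hq1
      · rw [hq, ← pow_mul, ← pow_mul, mul_comm k, mul_comm k, pow_mul, pow_mul]
        refine Nat.pow_le_pow_left ?_ _
        calc p ^ (e - 1) ≤ 3 * N := he.le
          _ ≤ 2 ^ (L + 1) := hlog.le
          _ ≤ p ^ (L + 1) := Nat.pow_le_pow_left hp2 _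
    calc q ^ e = q ^ (e - 1) * q := by
          rw [← pow_succ]
          congr 1
          omega
      _ ≤ q ^ (L + 1) * q := Nat.mul_le_mul_right _ h1
      _ = q ^ (L + 2) := by rw [← pow_succ]
  calc ((q ^ e) ^ (2 * wd d r N + 1 + r)) ^ (kd d N + 1)
      = (q ^ e) ^ ((2 * wd d r N + 1 + r) * (kd d N + 1)) := by rw [← pow_mul]
    _ ≤ (q ^ (L + 2)) ^ ((2 * wd d r N + 1 + r) * (kd d N + 1)) := Nat.pow_le_pow_left hqe _
    _ = q ^ ((2 * wd d r N + 1 + r) * (kd d N + 1) * (L + 2)) := by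
        rw [← pow_mul]
        congr 1
        ring
    _ ≤ q ^ (((3 * r + 1) * 3 * (2 + 6 * (d * (d + 1)))) * N) := Nat.pow_le_pow_right hq1 hkey
    _ = (q ^ N) ^ ((3 * r + 1) * 3 * (2 + 6 * (d * (d + 1)))) := by
        rw [← pow_mul]
        congr 1
        ring
    _ ≤ B ^ ((3 * r + 1) * 3 * (2 + 6 * (d * (d + 1)))) := Nat.pow_le_pow_left hB _

end Pool.Agent.H63WB
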