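import Mathlib

/-!
# Matrices which are the sum of a wide band matrix and a matrix of small rank
-/

set_option autoImplicit false

namespace Pool.Agent.H63WB

/-- `A = J + F * C`, where `J i j = 0` if `|i - j| ^ d > r * N ^ (d - 1)` and the inner dimension of
`F * C` is `r`. -/
def WideRank {R : Type*} [CommRing R] (d r : ℕ) {N : ℕ} (A : Matrix (Fin N) (Fin N) R) : Prop :=
  ∃ (J : Matrix (Fin N) (Fin N) R) (F : Matrix (Fin N) (Fin r) R) (C : Matrix (Fin r) (Fin N) R),
    (∀ i j : Fin N, r * N ^ (d - 1) < ((i : ℕ) - (j : ℕ) + ((j : ℕ) - (i : ℕ))) ^ d → J i j = 0) ∧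
    A = J + F * C

end Pool.Agent.H63WB
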