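import Pool.Agent.LinU.P7a
import Pool.Agent.H63WB.Def
import Pool.Agent.H63WB.Path

/-!
# Wide band plus small rank: the local form of the relation `(y - A) u = w` modulo `g`

The cells are `u_i`, `i < N`, elements of `(ZMod q)[y] / (g)`, coded by numbers `< Q = q ^ e`. A state is a
number `< Q ^ (2 w + 1 + r)`; its digits to the base `Q` are, for `κ < 2 w + 1`, the cells `i + κ - w` and,
for `2 w + 1 + s`, `s < r`, the partial sums `∑_(j < i) C s j u_j`. `lam s = ∑_(j < N) C s j u_j`.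
-/

set_option autoImplicit false

namespace Pool.Agent.H63WB

open Finset Polynomial Pool.Agent.LinU

/-- the coefficient `(i, j)` of the matrix of `T`, for `j < N` -/
def ac (q N : ℕ) (T : ℕ → ℕ) (i j : ℕ) : ℕ := dg q (T (q ^ min j N)) i

/-- the coefficient `(i, j)` of `F * C` -/
def fc (q r : ℕ) (F C : Fin r → ℕ) (i j : ℕ) : ℕ := ∑ s : Fin r, dg q (F s) i * dg q (C s) j

/-- the matrix of `T` minus `F * C` has bandwidth `≤ w` -/
def Valid (q N w r : ℕ) (T : ℕ → ℕ) (F C : Fin r → ℕ) : Prop :=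
  ∀ i, i < N → ∀ j, j < N → (i + w < j ∨ j + w < i) →
    ac q N T i j % q = fc q r F C i j % q

/-- the equation at the cell `i` -/
def Loc (q N e w r x : ℕ) (T : ℕ → ℕ) (F C : Fin r → ℕ) (g : ℕ) (lam : Fin r → ℕ) (i : ℕ)
    (a : ℕ → ℕ) : Prop :=
  ∀ l, l < e →
    ((∑ κ ∈ range (2 * w + 1), if w ≤ i + κ ∧ i + κ < N + w then
        (ac q N T i (i + κ - w) + (q - 1) * fc q r F C i (i + κ - w)) * dg q (a κ) l else 0) +
      (∑ s : Fin r, dg q (F s) i * dg q (lam s) l) + dg q g l * dg q (a w) (e - 1) +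
      (if l = 0 then dg q x i else 0)) % q = (if l = 0 then 0 else dg q (a w) (l - 1)) % q

/-- the relation between the components `a` and `b` of the states at the times `i` and `i + 1` -/
def EE (q N e w r x : ℕ) (T : ℕ → ℕ) (j : ℕ) (F C : Fin r → ℕ) (g U : ℕ) (lam : Fin r → ℕ) (i : ℕ)
    (a b : ℕ → ℕ) : Prop :=
  (∀ κ, κ < 2 * w → b κ = a (κ + 1)) ∧ Loc q N e w r x T F C g lam i a ∧
    (i = j → a w = U) ∧ (i = 0 → ∀ s : Fin r, a (2 * w + 1 + s) = 0) ∧
    (∀ s : Fin r, ∀ l, l < e → dg q (b (2 * w + 1 + s)) l % q =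
      (dg q (a (2 * w + 1 + s)) l + dg q (C s) i * dg q (a w) l) % q) ∧
    (i + 1 = N → ∀ s : Fin r, b (2 * w + 1 + s) = lam s)

/-- `U` is the coordinate `j` of a solution `u` of `(y - A) u = w` modulo `g` -/
def RR (q N e w r x : ℕ) (T : ℕ → ℕ) (j : ℕ) (F C : Fin r → ℕ) (g U : ℕ) : Prop :=
  ∃ lam : Fin r → ℕ, (∀ s, lam s < q ^ e) ∧
    ∃ st : ℕ → ℕ, (∀ i, st i < (q ^ e) ^ (2 * w + 1 + r)) ∧
      ∀ i, i < N → EE q N e w r x T j F C g U lam i (fun κ => dg (q ^ e) (st i) κ)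
        (fun κ => dg (q ^ e) (st (i + 1)) κ)

/-- `ν U - P = g h` in digits -/
def DivU (q N e g U ν P h : ℕ) : Prop :=
  ∀ k, k < N + e → (∑ a ∈ range (k + 1), dg q (ν + q ^ N) a * dg q U (k - a)) % q =
    (dg q P k + ∑ a ∈ range (k + 1), dg q (g + q ^ e) a * dg q h (k - a)) % q

/-- the pair `(ν, P)` is good for the coordinate `j` -/
def GoodB (q N e w r x : ℕ) (T : ℕ → ℕ) (j : ℕ) (F C : Fin r → ℕ) (ν P : ℕ) : Prop :=
  ∀ g, g < q ^ e → ∀ U, U < q ^ e → RR q N e w r x T j F C g U →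
    ∃ h, h < q ^ N ∧ DivU q N e g U ν P h

end Pool.Agent.H63WB
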