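import Pool.Agent.H63WB.RelB

/-!
# Package RelA: from a solution to a path (pure)
-/

set_option autoImplicit false

namespace Pool.Agent.H63WB

open Finset Polynomial Pool.Agent.LinU

open H63LB.RB in
theorem rr_of_sol {q N e w r x j g U : ℕ} {T : ℕ → ℕ} {F C : Fin r → ℕ} (hq : 2 ≤ q) (he : 1 ≤ e)
    (hj : j < N) (hU : U < q ^ e) {A : Matrix (Fin N) (Fin N) (ZMod q)}
    (hA : ∀ z, z < q ^ N → vecOf q N (T z) = A.mulVec (vecOf q N z)) (hV : Valid q N w r T F C)
    {u : ℕ → Fin N → ZMod q}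
    (hs : SolR.Sol A.mulVecLin (vecOf q N x) e (mu (ZMod q) q e g) u)
    (hu : ∀ l, l < e → ((dg q U l : ℕ) : ZMod q) = u l ⟨j, hj⟩) :
    RR q N e w r x T j F C g U := by
  have hN : 1 ≤ N := by omega
  -- codes
  have hco : ∀ f : ℕ → ZMod q, ∃ z, z < q ^ e ∧ ∀ l, l < e → ((dg q z l : ℕ) : ZMod q) = f l := by
    intro f
    obtain ⟨z, hz, hz2⟩ := A7.exists_code hq e (fun l : Fin e => f l)
    exact ⟨z, hz, fun l hl => congrFun hz2 ⟨l, hl⟩⟩
  choose co hco1 hco2 using hco
  have huniq : ∀ z f, z < q ^ e → (∀ l, l < e → ((dg q z l : ℕ) : ZMod q) = f l) → z = co f := by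
    intro z f hz h
    refine dg_ext hz (hco1 f) fun l hl => ?_
    have h1 := (h l hl).trans (hco2 f l hl).symm
    rw [ZMod.natCast_eq_natCast_iff', Nat.mod_eq_of_lt (dg_lt (by omega) _ _),
      Nat.mod_eq_of_lt (dg_lt (by omega) _ _)] at h1
    exact h1
  -- cells and partial sums
  obtain ⟨cv, hcv⟩ : ∃ cv : ℕ → ℕ → ZMod q, cv = fun i l => if h : i < N then u l ⟨i, h⟩ else 0 :=
    ⟨_, rfl⟩
  have hcv1 : ∀ i (hi : i < N) l, cv i l = u l ⟨i, hi⟩ := by
    intro i hi l
    rw [hcv]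
    exact dif_pos hi
  obtain ⟨av, hav⟩ : ∃ av : ℕ → Fin r → ℕ → ZMod q,
      av = fun i s l => ∑ j' ∈ range i, ((dg q (C s) j' : ℕ) : ZMod q) * cv j' l := ⟨_, rfl⟩
  obtain ⟨c, hc⟩ : ∃ c : ℕ → ℕ → ℕ, c = fun (i κ : ℕ) => if κ < 2 * w + 1 then
        (if w ≤ i + κ ∧ i + κ < N + w then co (cv (i + κ - w)) else 0)
      else if h : κ - (2 * w + 1) < r then co (av i ⟨κ - (2 * w + 1), h⟩) else 0 := ⟨_, rfl⟩
  have hax1 : ∀ i κ, κ < 2 * w + 1 → c i κ =
      if w ≤ i + κ ∧ i + κ < N + w then co (cv (i + κ - w)) else 0 := by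
    intro i κ hκ
    rw [hc]
    simp only
    rw [if_pos hκ]
  have hax2 : ∀ i (s : Fin r), c i (2 * w + 1 + s) = co (av i s) := by
    intro i s
    have hs' := s.2
    rw [hc]
    simp only
    rw [if_neg (by omega), dif_pos (by omega)]
    congr 2
    ext
    simp
  have hax3 : ∀ i κ, 2 * w + 1 + r ≤ κ → c i κ = 0 := by
    intro i κ hκ
    rw [hc]
    simp only
    rw [if_neg (by omega), dif_neg (by omega)]
  have hQ0 : 0 < q ^ e := pow_pos (by omega) _
  have hclt : ∀ i κ, c i κ < q ^ e := by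
    intro i κ
    rw [hc]
    simp only
    split_ifs
    · exact hco1 _
    · exact hQ0
    · exact hco1 _
    · exact hQ0
  obtain ⟨st, hst⟩ : ∃ st : ℕ → ℕ, st = fun i => ∑ κ ∈ range (2 * w + 1 + r),
      c i κ * (q ^ e) ^ κ := ⟨_, rfl⟩
  have hst1 : ∀ i, st i < (q ^ e) ^ (2 * w + 1 + r) := by
    intro i
    rw [hst]
    exact lt_code hQ0 _ fun κ _ => hclt i κ
  have hst2 : ∀ i, (fun κ => dg (q ^ e) (st i) κ) = c i := by
    intro i
    funext κ
    by_cases hκ : κ < 2 * w + 1 + r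
    · rw [hst]
      exact dg_code hQ0 _ (fun κ _ => hclt i κ) hκ
    · rw [hax3 i κ (by omega), A7.dg_zero_of_lt]
      exact (hst1 i).trans_le (Nat.pow_le_pow_right hQ0 (by omega))
  have hcen : ∀ i, i < N → c i w = co (cv i) := by
    intro i hi
    rw [hax1 i w (by omega), if_pos (by omega), Nat.add_sub_cancel]
  refine ⟨fun s => co (av N s), fun s => hco1 _, st, hst1, ?_⟩
  · intro i hi
    rw [hst2, hst2]
    refine ⟨?_, ?_, ?_, ?_, ?_, ?_⟩
    · intro κ hκ
      rw [hax1 _ _ (by omega), hax1 _ _ (by omega), show i + 1 + κ = i + (κ + 1) by omega]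
    · intro l hl
      rw [← ZMod.natCast_eq_natCast_iff']
      set J : ℕ → ZMod q := fun j' => ((ac q N T i j' : ℕ) : ZMod q) -
        ((fc q r F C i j' : ℕ) : ZMod q) with hJ
      have hJ0 : ∀ j', j' < N → (i + w < j' ∨ j' + w < i) → J j' = 0 := by
        intro j' hj' hb
        have h3 := hV i hi j' hj' hb
        rw [← ZMod.natCast_eq_natCast_iff'] at h3
        rw [hJ]
        simp only
        rw [h3, sub_self]
      have h4 := band_sum (N := N) (r := w) (i := i) J (fun j' => cv j' l) hJ0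
      have h8 : ((∑ κ ∈ range (2 * w + 1), if w ≤ i + κ ∧ i + κ < N + w then
          (ac q N T i (i + κ - w) + (q - 1) * fc q r F C i (i + κ - w)) * dg q (c i κ) l
          else 0 : ℕ) : ZMod q) =
          ∑ κ ∈ range (2 * w + 1), (if w ≤ i + κ ∧ i + κ < N + w then
            J (i + κ - w) * cv (i + κ - w) l else 0) := by
        rw [Nat.cast_sum]
        refine Finset.sum_congr rfl fun κ hκ => ?_
        by_cases hc : w ≤ i + κ ∧ i + κ < N + w
        · rw [if_pos hc, if_pos hc, hax1 _ _ (mem_range.1 hκ), if_pos hc, Nat.cast_mul,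
            hco2 _ l hl, Nat.cast_add, Nat.cast_mul, qm1 (by omega), hJ]
          ring
        · rw [if_neg hc, if_neg hc, Nat.cast_zero]
      have h9 : ((∑ s : Fin r, dg q (F s) i * dg q (co (av N s)) l : ℕ) : ZMod q) =
          ∑ j' ∈ range N, ((fc q r F C i j' : ℕ) : ZMod q) * cv j' l := by
        rw [Nat.cast_sum]
        have h7 : ∀ s : Fin r, ((dg q (F s) i * dg q (co (av N s)) l : ℕ) : ZMod q) =
            ∑ j' ∈ range N, ((dg q (F s) i : ℕ) : ZMod q) * (((dg q (C s) j' : ℕ) : ZMod q) *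
              cv j' l) := by
          intro s
          rw [Nat.cast_mul, hco2 _ l hl, hav, Finset.mul_sum]
        simp only [h7]
        rw [Finset.sum_comm]
        refine Finset.sum_congr rfl fun j' _ => ?_
        unfold fc
        push_cast
        rw [Finset.sum_mul]
        refine Finset.sum_congr rfl fun s _ => ?_
        ring
      have h2 : (A.mulVec (u l)) ⟨i, hi⟩ =
          ∑ j' ∈ range N, ((ac q N T i j' : ℕ) : ZMod q) * cv j' l := by
        rw [← Fin.sum_univ_eq_sum_range (fun j' => ((ac q N T i j' : ℕ) : ZMod q) * cv j' l) N]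
        show (∑ j' : Fin N, A ⟨i, hi⟩ j' * u l j') =
          ∑ j' : Fin N, ((ac q N T i j' : ℕ) : ZMod q) * cv j' l
        refine Finset.sum_congr rfl fun j' _ => ?_
        rw [acw_cast hq hA hi j'.2, hcv1 j' j'.2]
      have h5 : ∑ j' ∈ range N, ((ac q N T i j' : ℕ) : ZMod q) * cv j' l =
          ∑ j' ∈ range N, J j' * cv j' l +
          ∑ j' ∈ range N, ((fc q r F C i j' : ℕ) : ZMod q) * cv j' l := by
        rw [← Finset.sum_add_distrib]
        refine Finset.sum_congr rfl fun j' _ => ?_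
        rw [hJ]
        ring
      have h1 : (A.mulVec (u l)) ⟨i, hi⟩ =
          (if l = 0 then (0 : Fin N → ZMod q) else u (l - 1)) ⟨i, hi⟩ -
          (mu (ZMod q) q e g).coeff l * u (e - 1) ⟨i, hi⟩ -
          (if l = 0 then vecOf q N x else 0) ⟨i, hi⟩ := congrFun (hs l hl) ⟨i, hi⟩
      rw [A7.mu_coeff, if_pos hl] at h1
      rw [Nat.cast_add, Nat.cast_add, Nat.cast_add, h8, h4, h9, ← h5, ← h2, h1, Nat.cast_mul,
        hcen i hi, hco2 _ (e - 1) (by omega), hcv1 i hi]
      by_cases h0 : l = 0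
      · simp only [if_pos h0]
        have h10 : vecOf q N x ⟨i, hi⟩ = ((dg q x i : ℕ) : ZMod q) := rfl
        rw [h10, Pi.zero_apply]
        push_cast
        ring
      · simp only [if_neg h0]
        rw [Pi.zero_apply, hco2 _ (l - 1) (by omega), hcv1 i hi]
        push_cast
        ring
    · rintro rfl
      rw [hcen i hi]
      refine (huniq U _ hU fun l hl => ?_).symm
      rw [hu l hl, hcv1 i hi]
    · rintro rfl s
      rw [hax2]
      refine (huniq 0 _ (pow_pos (by omega) _) fun l hl => ?_).symm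
      rw [A7.dg_zero, hav]
      simp
    · intro s l hl
      rw [← ZMod.natCast_eq_natCast_iff', hax2, hax2, hcen i hi, Nat.cast_add, Nat.cast_mul,
        hco2 _ l hl, hco2 _ l hl, hco2 _ l hl, hav]
      simp only
      rw [Finset.sum_range_succ]
    · rintro rfl s
      rw [hax2]

end Pool.Agent.H63WB
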