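import Pool.Agent.H63WB.Rel
import Pool.Agent.H63LB.RelB

/-!
# Package RelB: from a path to a solution (pure)
-/

set_option autoImplicit false

namespace Pool.Agent.H63WB

open Finset Polynomial Pool.Agent.LinU

lemma acw_cast {q N i j : ℕ} {T : ℕ → ℕ} (hq : 2 ≤ q) {A : Matrix (Fin N) (Fin N) (ZMod q)}
    (hA : ∀ z, z < q ^ N → vecOf q N (T z) = A.mulVec (vecOf q N z)) (hi : i < N) (hj : j < N) :
    ((ac q N T i j : ℕ) : ZMod q) = A ⟨i, hi⟩ ⟨j, hj⟩ :=
  H63LB.RB.ac_cast hq hA hi hj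

open H63LB.RB in
theorem sol_of_rr {q N e w r x j g U : ℕ} {T : ℕ → ℕ} {F C : Fin r → ℕ} (hq : 2 ≤ q) (he : 1 ≤ e)
    (hj : j < N) {A : Matrix (Fin N) (Fin N) (ZMod q)}
    (hA : ∀ z, z < q ^ N → vecOf q N (T z) = A.mulVec (vecOf q N z)) (hV : Valid q N w r T F C)
    (h : RR q N e w r x T j F C g U) :
    ∃ u : ℕ → Fin N → ZMod q, SolR.Sol A.mulVecLin (vecOf q N x) e (mu (ZMod q) q e g) u ∧
      ∀ l, l < e → ((dg q U l : ℕ) : ZMod q) = u l ⟨j, hj⟩ := by
  obtain ⟨lam, hlam, st, hst, hE'⟩ := h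
  obtain ⟨c, hc⟩ : ∃ c : ℕ → ℕ → ℕ, c = fun i κ => dg (q ^ e) (st i) κ := ⟨_, rfl⟩
  have hE : ∀ i, i < N → EE q N e w r x T j F C g U lam i (c i) (c (i + 1)) := by
    rw [hc]
    exact hE'
  have hN : 1 ≤ N := by omega
  -- overlaps
  have hov : ∀ i, i < N → ∀ κ, κ < 2 * w → c (i + 1) κ = c i (κ + 1) :=
    fun i hi => (hE i hi).1
  have hfw : ∀ d i, w + d ≤ 2 * w → i + d ≤ N → c i (w + d) = c (i + d) w := by
    intro d
    induction d with
    | zero => intro i _ _; rfl
    | succ d ih =>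
      intro i h1 h2
      have h3 := hov i (by omega) (w + d) (by omega)
      have h4 := ih (i + 1) (by omega) (by omega)
      rw [show w + (d + 1) = w + d + 1 by omega, ← h3, h4]
      congr 1
      omega
  have hbw : ∀ d i, d ≤ w → i + d ≤ N → c (i + d) (w - d) = c i w := by
    intro d
    induction d with
    | zero => intro i _ _; rfl
    | succ d ih =>
      intro i h1 h2
      have h3 := hov (i + d) (by omega) (w - (d + 1)) (by omega)
      have h4 := ih i (by omega) (by omega)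
      rw [show i + (d + 1) = i + d + 1 by omega, h3, show w - (d + 1) + 1 = w - d by omega, h4]
  have hcell : ∀ i, i < N → ∀ κ, κ < 2 * w + 1 → w ≤ i + κ → i + κ < N + w →
      c i κ = c (i + κ - w) w := by
    intro i hi κ hκ h1 h2
    rcases le_total w κ with h3 | h3
    · obtain ⟨d, rfl⟩ := Nat.exists_eq_add_of_le h3
      rw [hfw d i (by omega) (by omega)]
      congr 1
      omega
    · obtain ⟨d, hd⟩ := Nat.exists_eq_add_of_le h3
      have h4 := hbw d (i - d) (by omega) (by omega)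
      rw [show i - d + d = i by omega, show w - d = κ by omega] at h4
      rw [h4]
      congr 1
      omega
  -- accumulators
  have hacc : ∀ i, i ≤ N → ∀ (s : Fin r) l, l < e →
      ((dg q (c i (2 * w + 1 + s)) l : ℕ) : ZMod q) =
      ∑ j' ∈ range i, ((dg q (C s) j' : ℕ) : ZMod q) * ((dg q (c j' w) l : ℕ) : ZMod q) := by
    intro i
    induction i with
    | zero =>
      intro _ s l _
      rw [(hE 0 (by omega)).2.2.2.1 rfl s, A7.dg_zero]
      simp
    | succ i ih =>
      intro hi s l hl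
      have h1 := (hE i (by omega)).2.2.2.2.1 s l hl
      rw [← ZMod.natCast_eq_natCast_iff'] at h1
      rw [h1, Finset.sum_range_succ, ← ih (by omega) s l hl]
      push_cast
      ring
  have hlamS : ∀ (s : Fin r) l, l < e → ((dg q (lam s) l : ℕ) : ZMod q) =
      ∑ j' ∈ range N, ((dg q (C s) j' : ℕ) : ZMod q) * ((dg q (c j' w) l : ℕ) : ZMod q) := by
    intro s l hl
    have h1 := (hE (N - 1) (by omega)).2.2.2.2.2 (by omega) s
    rw [show N - 1 + 1 = N by omega] at h1
    rw [← h1]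
    exact hacc N le_rfl s l hl
  refine ⟨fun l i => ((dg q (c i w) l : ℕ) : ZMod q), ?_, ?_⟩
  · intro l hl
    funext i
    obtain ⟨i, hi⟩ := i
    have h1 := (hE i hi).2.1 l hl
    rw [← ZMod.natCast_eq_natCast_iff'] at h1
    -- the matrix applied to `u l`
    have h2 : (A.mulVec fun i' : Fin N => ((dg q (c i' w) l : ℕ) : ZMod q)) ⟨i, hi⟩ =
        ∑ j' ∈ range N, ((ac q N T i j' : ℕ) : ZMod q) *
          ((dg q (c j' w) l : ℕ) : ZMod q) := by
      rw [← Fin.sum_univ_eq_sum_range (fun j' => ((ac q N T i j' : ℕ) : ZMod q) *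
          ((dg q (c j' w) l : ℕ) : ZMod q)) N]
      show (∑ j' : Fin N, A ⟨i, hi⟩ j' * ((dg q (c j' w) l : ℕ) : ZMod q)) =
        ∑ j' : Fin N, ((ac q N T i j' : ℕ) : ZMod q) * ((dg q (c j' w) l : ℕ) : ZMod q)
      refine Finset.sum_congr rfl fun j' _ => ?_
      rw [acw_cast hq hA hi j'.2]
    set J : ℕ → ZMod q := fun j' => ((ac q N T i j' : ℕ) : ZMod q) -
      ((fc q r F C i j' : ℕ) : ZMod q) with hJ
    have hJ0 : ∀ j', j' < N → (i + w < j' ∨ j' + w < i) → J j' = 0 := by
      intro j' hj' hb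
      have h3 := hV i hi j' hj' hb
      rw [← ZMod.natCast_eq_natCast_iff'] at h3
      rw [hJ]
      simp only
      rw [h3, sub_self]
    have h4 := band_sum (N := N) (r := w) (i := i) J
      (fun j' => ((dg q (c j' w) l : ℕ) : ZMod q)) hJ0
    have h5 : ∑ j' ∈ range N, ((ac q N T i j' : ℕ) : ZMod q) *
          ((dg q (c j' w) l : ℕ) : ZMod q) =
        ∑ j' ∈ range N, J j' * ((dg q (c j' w) l : ℕ) : ZMod q) +
        ∑ s : Fin r, ((dg q (F s) i : ℕ) : ZMod q) * ((dg q (lam s) l : ℕ) : ZMod q) := by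
      have h6 : ∑ s : Fin r, ((dg q (F s) i : ℕ) : ZMod q) * ((dg q (lam s) l : ℕ) : ZMod q) =
          ∑ j' ∈ range N, ((fc q r F C i j' : ℕ) : ZMod q) *
            ((dg q (c j' w) l : ℕ) : ZMod q) := by
        have h7 : ∀ s : Fin r, ((dg q (F s) i : ℕ) : ZMod q) * ((dg q (lam s) l : ℕ) : ZMod q) =
            ∑ j' ∈ range N, ((dg q (F s) i : ℕ) : ZMod q) * (((dg q (C s) j' : ℕ) : ZMod q) *
              ((dg q (c j' w) l : ℕ) : ZMod q)) := by
          intro s
          rw [hlamS s l hl, Finset.mul_sum]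
        simp only [h7]
        rw [Finset.sum_comm]
        refine Finset.sum_congr rfl fun j' _ => ?_
        unfold fc
        push_cast
        rw [Finset.sum_mul]
        refine Finset.sum_congr rfl fun s _ => ?_
        ring
      rw [h6, ← Finset.sum_add_distrib]
      refine Finset.sum_congr rfl fun j' _ => ?_
      rw [hJ]
      ring
    have h8 : ((∑ κ ∈ range (2 * w + 1), if w ≤ i + κ ∧ i + κ < N + w then
        (ac q N T i (i + κ - w) + (q - 1) * fc q r F C i (i + κ - w)) * dg q (c i κ) l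
        else 0 : ℕ) : ZMod q) =
        ∑ κ ∈ range (2 * w + 1), (if w ≤ i + κ ∧ i + κ < N + w then
          J (i + κ - w) * ((dg q (c (i + κ - w) w) l : ℕ) : ZMod q) else 0) := by
      rw [Nat.cast_sum]
      refine Finset.sum_congr rfl fun κ hκ => ?_
      by_cases hc : w ≤ i + κ ∧ i + κ < N + w
      · rw [if_pos hc, if_pos hc, hcell i hi κ (mem_range.1 hκ) hc.1 hc.2, Nat.cast_mul,
          Nat.cast_add, Nat.cast_mul, qm1 (by omega), hJ]
        ring
      · rw [if_neg hc, if_neg hc, Nat.cast_zero]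
    rw [Nat.cast_add, Nat.cast_add, Nat.cast_add, h8, h4] at h1
    have h9 : ((∑ s : Fin r, dg q (F s) i * dg q (lam s) l : ℕ) : ZMod q) =
        ∑ s : Fin r, ((dg q (F s) i : ℕ) : ZMod q) * ((dg q (lam s) l : ℕ) : ZMod q) := by
      push_cast
      rfl
    rw [h9, ← h5, ← h2] at h1
    show (A.mulVec fun i' : Fin N => ((dg q (c i' w) l : ℕ) : ZMod q)) ⟨i, hi⟩ =
      (if l = 0 then (0 : Fin N → ZMod q) else
        fun i' : Fin N => ((dg q (c i' w) (l - 1) : ℕ) : ZMod q)) ⟨i, hi⟩ -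
      (mu (ZMod q) q e g).coeff l * ((dg q (c i w) (e - 1) : ℕ) : ZMod q) -
      (if l = 0 then vecOf q N x else 0) ⟨i, hi⟩
    rw [A7.mu_coeff, if_pos hl]
    by_cases h0 : l = 0
    · simp only [if_pos h0] at h1 ⊢
      have h10 : vecOf q N x ⟨i, hi⟩ = ((dg q x i : ℕ) : ZMod q) := rfl
      rw [h10, Pi.zero_apply]
      push_cast at h1
      linear_combination h1
    · simp only [if_neg h0] at h1 ⊢
      rw [Pi.zero_apply]
      push_cast at h1
      linear_combination h1
  · intro l _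
    have h1 := (hE j hj).2.2.1 rfl
    simp only
    rw [h1]

end Pool.Agent.H63WB
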